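import Pool.Agent.V11178.Noisy

/-!
# The largest noisy `(k, l)`-sum-free sets in `ℤ_n` for the noise `{0, 1, …, c - 1}`
-/

set_option autoImplicit false

open Finset
open scoped Pointwise

namespace Pool.Agent.Results.MP_4e78b4_co.ExactValue

open Pool.Agent.V11178.Noisy

/-- The noise set `C = {0, 1, …, c - 1}`, read modulo `n`. -/
def noise (n c : ℕ) : Finset (ZMod n) := (range c).image (fun i : ℕ => (i : ZMod n))

/-- `m *_C A = m A + (m - 1) C`. -/
def noisySum (n c m : ℕ) (A : Finset (ZMod n)) : Finset (ZMod n) :=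
  msum m A + msum (m - 1) (noise n c)

/-- `A` is `C`-`(k, l)`-sum-free: `(k *_C A) ∩ (l *_C A) = ∅`. -/
def NoisyFree (n k l c : ℕ) (A : Finset (ZMod n)) : Prop :=
  Disjoint (noisySum n c k A) (noisySum n c l A)

/-- `μ^C_{k,l}(ℤ/nℤ)`: the largest size of a `C`-`(k, l)`-sum-free subset. -/
noncomputable def mu (n k l c : ℕ) : ℕ :=
  sSup {N : ℕ | ∃ A : Finset (ZMod n), A.card = N ∧ NoisyFree n k l c A}

/-- `χ = ⌊(n + 2(c - 2)) / (k + l)⌋ - (c - 2)`. -/
def chi (n k l c : ℕ) : ℤ :=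
  ((n : ℤ) + 2 * ((c : ℤ) - 2)) / ((k : ℤ) + l) - ((c : ℤ) - 2)

/-- The residue of `-kχ - (k - 1)(c - 2)` modulo `δ = gcd(n, k - l)`. -/
def resid (n k l c : ℕ) : ℤ :=
  (-(k : ℤ) * chi n k l c - ((k : ℤ) - 1) * ((c : ℤ) - 2)) % ((Nat.gcd n (k - l) : ℕ) : ℤ)

/-- `L = ⌊(n + 2(c - 2) - r) / (k + l)⌋ - (c - 2)`. -/
def bigL (n k l c : ℕ) : ℤ :=
  ((n : ℤ) + 2 * ((c : ℤ) - 2) - resid n k l c) / ((k : ℤ) + l) - ((c : ℤ) - 2)

/-- The arithmetic criterion for an interval of length `t`. -/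
def Crit (n k l c t : ℕ) : Prop :=
  ∃ x : ℤ, ((Nat.gcd n (k - l) : ℕ) : ℤ) ∣ x ∧
    (k : ℤ) * t + ((k : ℤ) - 1) * ((c : ℤ) - 2) ≤ x ∧
    x ≤ (n : ℤ) - (l : ℤ) * t - ((l : ℤ) - 1) * ((c : ℤ) - 2)

theorem gcd_pos {n k l : ℕ} (hn : 0 < n) : 0 < Nat.gcd n (k - l) := Nat.gcd_pos_of_pos_left _ hn

theorem gcd_le {n k l : ℕ} (hkl : l < k) : Nat.gcd n (k - l) ≤ k - l :=
  Nat.le_of_dvd (by omega) (Nat.gcd_dvd_right _ _)

theorem resid_bounds {n k l c : ℕ} (hn : 0 < n) (hkl : l < k) :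
    0 ≤ resid n k l c ∧ resid n k l c < (k : ℤ) - l := by
  have h1 : (0 : ℤ) < ((Nat.gcd n (k - l) : ℕ) : ℤ) := by exact_mod_cast gcd_pos hn
  have h2 := gcd_le (n := n) hkl
  constructor
  · exact Int.emod_nonneg _ h1.ne'
  · have := Int.emod_lt_of_pos (-(k : ℤ) * chi n k l c - ((k : ℤ) - 1) * ((c : ℤ) - 2)) h1
    unfold resid
    omega

theorem emod_le_of_nonneg (a b : ℤ) (ha : 0 ≤ a) (hb : 0 < b) : a % b ≤ a := by
  have h1 := Int.emod_add_mul_ediv a b
  have h2 := Int.ediv_nonneg ha hb.le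
  have h3 := mul_nonneg hb.le h2
  linarith

theorem crit_le {n k l c t : ℕ} (hn : 0 < n) (hl : 1 ≤ l) (hkl : l < k) (h : Crit n k l c t) :
    (t : ℤ) ≤ bigL n k l c := by
  obtain ⟨x, hx, h1, h2⟩ := h
  have hm : (0 : ℤ) < (k : ℤ) + l := by omega
  obtain ⟨hr0, hr1⟩ := resid_bounds (c := c) hn hkl
  obtain ⟨T, hT⟩ : ∃ T : ℤ, T = (n : ℤ) + 2 * ((c : ℤ) - 2) := ⟨_, rfl⟩
  have hchi : chi n k l c = T / ((k : ℤ) + l) - ((c : ℤ) - 2) := by rw [hT]; rfl
  have hL : bigL n k l c = (T - resid n k l c) / ((k : ℤ) + l) - ((c : ℤ) - 2) := by rw [hT]; rfl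
  have h3 : ((t : ℤ) + ((c : ℤ) - 2)) * ((k : ℤ) + l) ≤ T := by rw [hT]; nlinarith
  have h4 : (t : ℤ) + ((c : ℤ) - 2) ≤ T / ((k : ℤ) + l) := (Int.le_ediv_iff_mul_le hm).mpr h3
  rcases lt_or_eq_of_le h4 with h5 | h5
  · have h6 : (t : ℤ) + ((c : ℤ) - 2) + 1 ≤ T / ((k : ℤ) + l) := h5
    have h7 := (Int.le_ediv_iff_mul_le hm).mp h6
    have h8 : (t : ℤ) + ((c : ℤ) - 2) ≤ (T - resid n k l c) / ((k : ℤ) + l) := by
      rw [Int.le_ediv_iff_mul_le hm]
      nlinarith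
    omega
  · have hct : chi n k l c = t := by omega
    have h6 : resid n k l c ≤ x - ((k : ℤ) * t + ((k : ℤ) - 1) * ((c : ℤ) - 2)) := by
      have e : resid n k l c = (x - ((k : ℤ) * t + ((k : ℤ) - 1) * ((c : ℤ) - 2))) %
          ((Nat.gcd n (k - l) : ℕ) : ℤ) := by
        unfold resid
        rw [hct]
        have e2 : x - ((k : ℤ) * t + ((k : ℤ) - 1) * ((c : ℤ) - 2)) =
          (-(k : ℤ) * t - ((k : ℤ) - 1) * ((c : ℤ) - 2)) + x := by ring
        rw [e2]
        obtain ⟨y, rfl⟩ := hx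
        rw [Int.add_mul_emod_self_left]
      rw [e]
      exact emod_le_of_nonneg _ _ (by omega) (by exact_mod_cast gcd_pos hn)
    have h8 : (t : ℤ) + ((c : ℤ) - 2) ≤ (T - resid n k l c) / ((k : ℤ) + l) := by
      rw [Int.le_ediv_iff_mul_le hm, hT]
      nlinarith
    omega

theorem crit_of_L {n k l c : ℕ} (hn : 0 < n) (hl : 1 ≤ l) (hkl : l < k)
    (hL1 : 1 ≤ bigL n k l c) : Crit n k l c (bigL n k l c).toNat := by
  have hm : (0 : ℤ) < (k : ℤ) + l := by omega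
  obtain ⟨hr0, hr1⟩ := resid_bounds (c := c) hn hkl
  obtain ⟨T, hT⟩ : ∃ T : ℤ, T = (n : ℤ) + 2 * ((c : ℤ) - 2) := ⟨_, rfl⟩
  have hchi : chi n k l c = T / ((k : ℤ) + l) - ((c : ℤ) - 2) := by rw [hT]; rfl
  have hL : bigL n k l c = (T - resid n k l c) / ((k : ℤ) + l) - ((c : ℤ) - 2) := by rw [hT]; rfl
  obtain ⟨t, ht⟩ : ∃ t : ℤ, t = bigL n k l c := ⟨_, rfl⟩
  have hto : (((bigL n k l c).toNat : ℕ) : ℤ) = t := by
    rw [ht]; exact Int.toNat_of_nonneg (by omega)
  unfold Crit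
  rw [hto]
  have hg : (0 : ℤ) < ((Nat.gcd n (k - l) : ℕ) : ℤ) := by exact_mod_cast gcd_pos hn
  have hg2 := gcd_le (n := n) hkl
  have hg3 : ((Nat.gcd n (k - l) : ℕ) : ℤ) ≤ (k : ℤ) - l := by omega
  have h1 : (t + ((c : ℤ) - 2)) * ((k : ℤ) + l) ≤ T - resid n k l c := by
    rw [← Int.le_ediv_iff_mul_le hm]; omega
  have hle : t ≤ chi n k l c := by
    rw [ht, hL, hchi]
    have : (T - resid n k l c) / ((k : ℤ) + l) ≤ T / ((k : ℤ) + l) :=
      Int.ediv_le_ediv hm (by omega)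
    omega
  obtain ⟨P, hP⟩ : ∃ P : ℤ, P = (k : ℤ) * t + ((k : ℤ) - 1) * ((c : ℤ) - 2) := ⟨_, rfl⟩
  refine ⟨P + (-P) % ((Nat.gcd n (k - l) : ℕ) : ℤ), ?_, ?_, ?_⟩
  · have := Int.dvd_self_sub_emod (x := -P) (m := ((Nat.gcd n (k - l) : ℕ) : ℤ))
    have h2 := (dvd_neg).mpr this
    have e : -(-P - -P % ((Nat.gcd n (k - l) : ℕ) : ℤ)) =
      P + (-P) % ((Nat.gcd n (k - l) : ℕ) : ℤ) := by ring
    rwa [e] at h2
  · rw [← hP]
    have := Int.emod_nonneg (-P) hg.ne'
    omega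
  · rcases lt_or_eq_of_le hle with h5 | h5
    · have h6 : t + ((c : ℤ) - 2) + 1 ≤ T / ((k : ℤ) + l) := by omega
      have h7 := (Int.le_ediv_iff_mul_le hm).mp h6
      have h8 := Int.emod_lt_of_pos (-P) hg
      rw [hP] at h8 ⊢
      rw [hT] at h7
      nlinarith
    · have e : (-P) % ((Nat.gcd n (k - l) : ℕ) : ℤ) = resid n k l c := by
        unfold resid
        rw [← h5, hP]
        congr 1
        ring
      rw [e, hP]
      rw [hT] at h1
      nlinarith

theorem crit_lift {N h k l c t : ℕ} (hh : 0 < h) (hl : 1 ≤ l) (hkl : l < k) (hc : 2 ≤ c)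
    (hcrit : Crit N k l c t) : Crit (N * h) k l c (h * t) := by
  obtain ⟨x, ⟨y, hy⟩, h1, h2⟩ := hcrit
  have hh' : (1 : ℤ) ≤ h := by exact_mod_cast hh
  have a1 : (0 : ℤ) ≤ ((k : ℤ) - 1) * ((c : ℤ) - 2) := mul_nonneg (by omega) (by omega)
  have a2 : (0 : ℤ) ≤ ((l : ℤ) - 1) * ((c : ℤ) - 2) := mul_nonneg (by omega) (by omega)
  refine ⟨(h : ℤ) * x, ?_, ?_, ?_⟩
  · have h3 : Nat.gcd (N * h) (k - l) ∣ h * Nat.gcd N (k - l) := by
      rw [← Nat.gcd_mul_left, mul_comm N h]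
      exact Nat.gcd_dvd_gcd_mul_left_right _ _ _
    have h4 : ((Nat.gcd (N * h) (k - l) : ℕ) : ℤ) ∣ ((h * Nat.gcd N (k - l) : ℕ) : ℤ) := by
      exact_mod_cast h3
    rw [hy, ← mul_assoc]
    refine Dvd.dvd.mul_right ?_ y
    push_cast at h4 ⊢
    exact h4
  · push_cast
    nlinarith
  · push_cast
    nlinarith

theorem noise_eq {n c : ℕ} (hc : 1 ≤ c) : noise n c = ivl (0 : ZMod n) (c - 1) := by
  unfold noise ivl
  have : c - 1 + 1 = c := by omega
  rw [this]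
  congr 1
  funext i
  simp

theorem noisySum_ivl {n c m : ℕ} [NeZero n] (hc : 1 ≤ c) (a : ZMod n) (w : ℕ) :
    noisySum n c m (ivl a w) = ivl ((m : ZMod n) * a) (m * w + (m - 1) * (c - 1)) := by
  unfold noisySum
  rw [noise_eq hc, msum_ivl, msum_ivl, ivl_add]
  congr 1
  simp

theorem card_ivl {n : ℕ} [NeZero n] (a : ZMod n) {w : ℕ} (hw : w < n) :
    (ivl a w).card = w + 1 := by
  unfold ivl
  rw [card_image_of_injOn, card_range]
  intro x hx y hy hxy
  rw [mem_coe, mem_range] at hx hy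
  have h1 : (x : ZMod n) = (y : ZMod n) := add_left_cancel hxy
  rw [ZMod.natCast_eq_natCast_iff', Nat.mod_eq_of_lt (by omega),
    Nat.mod_eq_of_lt (by omega)] at h1
  exact h1

/-- From the criterion to a sum-free interval. -/
theorem free_interval {n k l c t : ℕ} (hn : 0 < n) (hl : 1 ≤ l) (hkl : l < k) (hc : 2 ≤ c)
    (ht : 1 ≤ t) (hcrit : Crit n k l c t) :
    ∃ A : Finset (ZMod n), A.card = t ∧ NoisyFree n k l c A := by
  have : NeZero n := ⟨hn.ne'⟩
  obtain ⟨x, ⟨y, hy⟩, h1, h2⟩ := hcrit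
  have hbez := Nat.gcd_eq_gcd_ab n (k - l)
  obtain ⟨u, hu⟩ : ∃ u : ℤ, u = Nat.gcdA n (k - l) := ⟨_, rfl⟩
  obtain ⟨v, hv⟩ : ∃ v : ℤ, v = Nat.gcdB n (k - l) := ⟨_, rfl⟩
  rw [← hu, ← hv] at hbez
  have hkl' : ((k - l : ℕ) : ℤ) = (k : ℤ) - l := by omega
  rw [hkl'] at hbez
  have hxe : x = (n : ℤ) * (u * y) + ((k : ℤ) - l) * (v * y) := by rw [hy, hbez]; ring
  have a1 : (0 : ℤ) ≤ ((k : ℤ) - 1) * ((c : ℤ) - 2) := mul_nonneg (by omega) (by omega)
  have a2 : (0 : ℤ) ≤ ((l : ℤ) - 1) * ((c : ℤ) - 2) := mul_nonneg (by omega) (by omega)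
  have htn : t ≤ n := by
    have : (t : ℤ) ≤ n := by nlinarith
    exact_mod_cast this
  refine ⟨ivl ((-(v * y) : ℤ) : ZMod n) (t - 1), ?_, ?_⟩
  · rw [card_ivl _ (by omega)]; omega
  · unfold NoisyFree
    rw [noisySum_ivl (by omega), noisySum_ivl (by omega), Finset.disjoint_left]
    intro z hz1 hz2
    obtain ⟨t1, ht1, rfl⟩ := mem_ivl.mp hz1
    obtain ⟨t2, ht2, hz⟩ := mem_ivl.mp hz2
    have h3 : (((k : ℤ) * (-(v * y)) + t1 - ((l : ℤ) * (-(v * y)) + t2) : ℤ) : ZMod n) = 0 := by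
      push_cast
      push_cast at hz
      rw [hz]
      ring
    rw [ZMod.intCast_zmod_eq_zero_iff_dvd] at h3
    have h4 : (n : ℤ) ∣ x - ((t1 : ℤ) - t2) := by
      have e : x - ((t1 : ℤ) - t2) = (n : ℤ) * (u * y) -
        ((k : ℤ) * (-(v * y)) + t1 - ((l : ℤ) * (-(v * y)) + t2)) := by rw [hxe]; ring
      rw [e]
      exact dvd_sub (Dvd.intro _ rfl) h3
    have b1 : (t1 : ℤ) ≤ (k : ℤ) * ((t : ℤ) - 1) + ((k : ℤ) - 1) * ((c : ℤ) - 1) := by
      have : ((k * (t - 1) + (k - 1) * (c - 1) : ℕ) : ℤ) =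
          (k : ℤ) * ((t : ℤ) - 1) + ((k : ℤ) - 1) * ((c : ℤ) - 1) := by
        push_cast [Nat.cast_sub ht, Nat.cast_sub (by omega : 1 ≤ k),
          Nat.cast_sub (by omega : 1 ≤ c)]
        ring
      rw [← this]
      exact_mod_cast ht1
    have b2 : (t2 : ℤ) ≤ (l : ℤ) * ((t : ℤ) - 1) + ((l : ℤ) - 1) * ((c : ℤ) - 1) := by
      have : ((l * (t - 1) + (l - 1) * (c - 1) : ℕ) : ℤ) =
          (l : ℤ) * ((t : ℤ) - 1) + ((l : ℤ) - 1) * ((c : ℤ) - 1) := by
        push_cast [Nat.cast_sub ht, Nat.cast_sub hl, Nat.cast_sub (by omega : 1 ≤ c)]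
        ring
      rw [← this]
      exact_mod_cast ht2
    have c1 : 0 < x - ((t1 : ℤ) - t2) := by nlinarith
    have c2 : x - ((t1 : ℤ) - t2) < n := by nlinarith
    exact absurd (Int.le_of_dvd c1 h4) (by omega)

open Pool.Agent.Helper549 Pool.Agent.Helper549.Kneser

theorem noisySum_eq {n c m : ℕ} (hm : 1 ≤ m) (A : Finset (ZMod n)) :
    noisySum n c m A = msum (m - 1) (A + noise n c) + A := by
  unfold noisySum
  obtain ⟨j, rfl⟩ : ∃ j, m = j + 1 := ⟨m - 1, by omega⟩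
  rw [Nat.add_sub_cancel, msum_succ, msum_add]
  rw [add_assoc, add_comm A, ← add_assoc]

/-- A sum-free interval satisfies the criterion. -/
theorem crit_of_ivl {n k l c : ℕ} [NeZero n] (hl : 1 ≤ l) (hkl : l < k) (hc : 2 ≤ c)
    (a : ZMod n) (t : ℕ) (ht : 1 ≤ t) (hfree : NoisyFree n k l c (ivl a (t - 1))) :
    Crit n k l c t := by
  unfold NoisyFree at hfree
  rw [noisySum_ivl (by omega), noisySum_ivl (by omega), Finset.disjoint_left] at hfree
  have hn : 0 < n := Nat.pos_of_ne_zero (NeZero.ne n)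
  have hn' : (0 : ℤ) < n := by exact_mod_cast hn
  obtain ⟨w, hw⟩ : ∃ w : ℤ, w = (l : ℤ) * ((t : ℤ) - 1) + ((l : ℤ) - 1) * ((c : ℤ) - 1) := ⟨_, rfl⟩
  obtain ⟨w', hw'⟩ : ∃ w' : ℤ, w' = (k : ℤ) * ((t : ℤ) - 1) + ((k : ℤ) - 1) * ((c : ℤ) - 1) :=
    ⟨_, rfl⟩
  have e1 : ((k * (t - 1) + (k - 1) * (c - 1) : ℕ) : ℤ) = w' := by
    rw [hw']
    push_cast [Nat.cast_sub ht, Nat.cast_sub (by omega : 1 ≤ k), Nat.cast_sub (by omega : 1 ≤ c)]
    ring
  have e2 : ((l * (t - 1) + (l - 1) * (c - 1) : ℕ) : ℤ) = w := by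
    rw [hw]
    push_cast [Nat.cast_sub ht, Nat.cast_sub hl, Nat.cast_sub (by omega : 1 ≤ c)]
    ring
  have hw0 : 0 ≤ w := by rw [← e2]; positivity
  obtain ⟨y, hy⟩ : ∃ y : ℤ, y = -(((k : ℤ) - l) * (a.val : ℤ)) := ⟨_, rfl⟩
  obtain ⟨x, hx⟩ : ∃ x : ℤ, x = (y + w) % n - w := ⟨_, rfl⟩
  have hx1 : -w ≤ x := by
    have := Int.emod_nonneg (y + w) hn'.ne'
    omega
  have hx2 : x ≤ n - 1 - w := by
    have := Int.emod_lt_of_pos (y + w) hn'
    omega
  have hxy : (n : ℤ) ∣ y - x := by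
    have := Int.dvd_self_sub_emod (x := y + w) (m := (n : ℤ))
    have e : y - x = y + w - (y + w) % n := by rw [hx]; ring
    rwa [e]
  have hxw : w' < x := by
    by_contra hcon
    push Not at hcon
    -- write x = t1 - t2
    obtain ⟨t1, t2, h1, h2, h3⟩ : ∃ t1 t2 : ℕ, (t1 : ℤ) ≤ w' ∧ (t2 : ℤ) ≤ w ∧
        x = (t1 : ℤ) - t2 := by
      rcases le_or_gt 0 x with h0 | h0
      · exact ⟨x.toNat, 0, by omega, by omega, by omega⟩
      · have hw'0 : 0 ≤ w' := by rw [← e1]; positivity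
        exact ⟨0, (-x).toNat, by omega, by omega, by omega⟩
    rw [← e1] at h1
    rw [← e2] at h2
    have h1' : t1 ≤ k * (t - 1) + (k - 1) * (c - 1) := by exact_mod_cast h1
    have h2' : t2 ≤ l * (t - 1) + (l - 1) * (c - 1) := by exact_mod_cast h2
    apply hfree (mem_ivl.mpr ⟨t1, h1', rfl⟩)
    refine mem_ivl.mpr ⟨t2, h2', ?_⟩
    have h4 : ((y - x : ℤ) : ZMod n) = 0 := by
      rw [ZMod.intCast_zmod_eq_zero_iff_dvd]; exact hxy
    rw [hy, h3] at h4
    push_cast at h4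
    rw [ZMod.natCast_zmod_val] at h4
    linear_combination -h4
  refine ⟨x, ?_, ?_, ?_⟩
  · have d1 : ((Nat.gcd n (k - l) : ℕ) : ℤ) ∣ (n : ℤ) := by
      exact_mod_cast Nat.gcd_dvd_left n (k - l)
    have d2 : ((Nat.gcd n (k - l) : ℕ) : ℤ) ∣ (k : ℤ) - l := by
      have h5 : ((k - l : ℕ) : ℤ) = (k : ℤ) - l := by omega
      rw [← h5]
      exact_mod_cast Nat.gcd_dvd_right n (k - l)
    have d3 : ((Nat.gcd n (k - l) : ℕ) : ℤ) ∣ y := by
      rw [hy, dvd_neg]
      exact Dvd.dvd.mul_right d2 _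
    have := dvd_sub d3 (d1.trans hxy)
    rwa [sub_sub_cancel] at this
  · rw [hw'] at hxw
    nlinarith
  · rw [hw] at hx2
    nlinarith

theorem image_msum {N n : ℕ} (f : ZMod n →+* ZMod N) (m : ℕ) (A : Finset (ZMod n)) :
    (msum m A).image f = msum m (A.image f) := by
  induction m with
  | zero => simp [msum]
  | succ m ih =>
    rw [msum_succ, msum_succ, ← ih]
    exact Finset.image_add f

theorem image_noise {N n : ℕ} (f : ZMod n →+* ZMod N) (c : ℕ) :
    (noise n c).image f = noise N c := by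
  unfold noise
  rw [image_image]
  congr 1
  funext i
  simp

theorem image_noisySum {N n : ℕ} (f : ZMod n →+* ZMod N) (c m : ℕ) (A : Finset (ZMod n)) :
    (noisySum n c m A).image f = noisySum N c m (A.image f) := by
  unfold noisySum
  rw [← image_noise f c, ← image_msum, ← image_msum]
  exact Finset.image_add f

/-- An element of the kernel of `ℤ_n → ℤ_N` is a multiple of `N`. -/
theorem mem_of_cast_zero {N h : ℕ} [NeZero (N * h)] (f : ZMod (N * h) →+* ZMod N)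
    (H : AddSubgroup (ZMod (N * h))) (hH : ((N : ℕ) : ZMod (N * h)) ∈ H) (x : ZMod (N * h))
    (hx : f x = 0) : x ∈ H := by
  have h1 : ((x.val : ℕ) : ZMod N) = 0 := by
    rw [← hx, ← map_natCast f, ZMod.natCast_zmod_val]
  rw [ZMod.natCast_eq_zero_iff] at h1
  obtain ⟨j, hj⟩ := h1
  have h2 : x = j • ((N : ℕ) : ZMod (N * h)) := by
    rw [← ZMod.natCast_zmod_val x, hj, nsmul_eq_mul]
    push_cast
    ring
  rw [h2]
  exact H.nsmul_mem hH j

theorem card_le_image {N h : ℕ} [NeZero (N * h)] (f : ZMod (N * h) →+* ZMod N)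
    (A : Finset (ZMod (N * h))) : A.card ≤ h * (A.image f).card := by
  apply Finset.card_le_mul_card_image
  intro q _
  have hN : 0 < N := Nat.pos_of_ne_zero (fun h0 => NeZero.ne (N * h) (by rw [h0, zero_mul]))
  have hf : ∀ x : ZMod (N * h), f x = ((x.val : ℕ) : ZMod N) := by
    intro x
    rw [← map_natCast f, ZMod.natCast_zmod_val]
  calc (A.filter (fun x => f x = q)).card ≤ (range h).card := by
        apply Finset.card_le_card_of_injOn (fun x => x.val / N)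
        · intro x _
          rw [mem_coe, mem_range]
          exact Nat.div_lt_of_lt_mul (ZMod.val_lt x)
        · intro x hx y hy hxy
          rw [mem_coe, mem_filter] at hx hy
          simp only at hxy
          have h1 : ((x.val : ℕ) : ZMod N) = ((y.val : ℕ) : ZMod N) := by
            rw [← hf, ← hf, hx.2, hy.2]
          rw [ZMod.natCast_eq_natCast_iff'] at h1
          apply ZMod.val_injective
          rw [← Nat.div_add_mod x.val N, ← Nat.div_add_mod y.val N, hxy, h1]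
    _ = h := card_range h

/-- A nonzero subgroup of `ℤ_n` contains a proper divisor of `n`. -/
theorem exists_divisor {n : ℕ} [NeZero n] (H : AddSubgroup (ZMod n)) (hH : H ≠ ⊥) :
    ∃ N h : ℕ, n = N * h ∧ N < n ∧ ((N : ℕ) : ZMod n) ∈ H := by
  obtain ⟨g, hgne⟩ := AddSubgroup.ne_bot_iff_exists_ne_zero.mp hH
  have hg : (g : ZMod n) ∈ H := g.2
  have hg0 : (g : ZMod n) ≠ 0 := fun h0 => hgne (Subtype.ext h0)
  obtain ⟨g', hg'⟩ : ∃ g' : ZMod n, g' = (g : ZMod n) := ⟨_, rfl⟩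
  rw [← hg'] at hg hg0
  have hv : g'.val ≠ 0 := by
    intro h0
    exact hg0 ((ZMod.val_eq_zero g').mp h0)
  obtain ⟨h, hh⟩ := Nat.gcd_dvd_right g'.val n
  refine ⟨Nat.gcd g'.val n, h, hh, ?_, ?_⟩
  · exact lt_of_le_of_lt (Nat.le_of_dvd (Nat.pos_of_ne_zero hv) (Nat.gcd_dvd_left _ _))
      (ZMod.val_lt g')
  · have hbez := Nat.gcd_eq_gcd_ab g'.val n
    have h1 : ((Nat.gcd g'.val n : ℕ) : ZMod n) = (Nat.gcdA g'.val n) • g' := by
      have h2 : (((Nat.gcd g'.val n : ℕ) : ℤ) : ZMod n) =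
          (((g'.val : ℤ) * Nat.gcdA g'.val n + (n : ℤ) * Nat.gcdB g'.val n : ℤ) : ZMod n) := by
        rw [hbez]
      push_cast at h2
      rw [ZMod.natCast_zmod_val, ZMod.natCast_self, zero_mul, add_zero] at h2
      rw [h2, zsmul_eq_mul, mul_comm]
    rw [h1]
    exact H.zsmul_mem hg _

/-- Every nonempty noisy sum-free set is at most as large as some length meeting the
criterion. -/
theorem exists_crit (k l c : ℕ) (hl : 1 ≤ l) (hkl : l < k) (hc : 2 ≤ c) : ∀ n : ℕ, 0 < n →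
    ∀ A : Finset (ZMod n), A.Nonempty → NoisyFree n k l c A →
      ∃ t : ℕ, A.card ≤ t ∧ Crit n k l c t := by
  intro n
  induction n using Nat.strong_induction_on with
  | _ n ih =>
  intro hn A hA hfree
  have : NeZero n := ⟨hn.ne'⟩
  obtain ⟨X, hX⟩ : ∃ X, X = noisySum n c k A := ⟨_, rfl⟩
  obtain ⟨Y, hY⟩ : ∃ Y, Y = noisySum n c l A := ⟨_, rfl⟩
  have hXY : ∀ z ∈ X, z ∉ Y := by
    unfold NoisyFree at hfree
    rw [← hX, ← hY, Finset.disjoint_left] at hfree
    exact fun z h => hfree h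
  obtain ⟨S, hS⟩ : ∃ S, S = X + -Y := ⟨_, rfl⟩
  have h0S : (0 : ZMod n) ∉ S := by
    intro h
    rw [hS, Finset.mem_add] at h
    obtain ⟨x, hx, y, hy, hxy⟩ := h
    rw [Finset.mem_neg'] at hy
    have : x = -y := eq_neg_of_add_eq_zero_left hxy
    exact hXY x hx (this ▸ hy)
  by_cases hstab : stab S = ⊥
  · -- aperiodic case
    obtain ⟨D, hD⟩ : ∃ D, D = A + noise n c := ⟨_, rfl⟩
    have hnoise : noise n c = ivl (0 : ZMod n) (c - 1) := noise_eq (by omega)
    have hDne : D.Nonempty := by rw [hD, hnoise]; exact hA.add (ivl_nonempty _ _)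
    have hXe : X = msum (k - 1) D + A := by rw [hX, noisySum_eq (by omega), hD]
    have hYe : Y = msum (l - 1) D + A := by rw [hY, noisySum_eq (by omega), hD]
    have hSe : S = msum (k - 1) D + (msum (l - 1) (-D) + (A + -A)) := by
      rw [hS, hXe, hYe, neg_add, msum_neg]
      rw [add_assoc, add_left_comm A]
    have hYne : Y.Nonempty := by rw [hYe]; exact (msum_nonempty hDne _).add hA
    have hDU : D ≠ univ := by
      intro hDU
      obtain ⟨y, hy⟩ := hYne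
      refine hXY y ?_ hy
      rw [hXe]
      obtain ⟨j, hj⟩ : ∃ j, k - 1 = j + 1 := ⟨k - 2, by omega⟩
      rw [hj, msum_succ, hDU]
      obtain ⟨a, ha⟩ := hA
      obtain ⟨b, hb⟩ := msum_nonempty (⟨0, mem_univ 0⟩ : (univ : Finset (ZMod n)).Nonempty) j
      rw [Finset.mem_add]
      refine ⟨y - a, ?_, a, ha, by ring⟩
      rw [Finset.mem_add]
      exact ⟨b, hb, y - a - b, mem_univ _, by ring⟩
    have hA1U : A + ivl 0 1 ≠ univ := by
      intro h
      apply hDU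
      rw [hD, hnoise, ← Finset.univ_subset_iff, ← h]
      exact Finset.add_subset_add_left (ivl_subset (by omega))
    by_cases hc1 : (A + ivl 0 1).card ≤ A.card + 1
    · -- an interval
      obtain ⟨a, ha⟩ := interval_of_card hA hA1U hc1
      refine ⟨A.card, le_rfl, ?_⟩
      have hpos : 1 ≤ A.card := Finset.card_pos.mpr hA
      apply crit_of_ivl hl hkl hc a A.card hpos
      rw [← ha]
      exact hfree
    · -- not an interval
      push Not at hc1
      have hDe : D = (A + ivl 0 1) + ivl 0 (c - 2) := by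
        rw [hD, hnoise, add_assoc, ivl_add, add_zero]
        congr 2
        omega
      have hDc : A.card + c ≤ D.card := by
        have h1 := add_ivl_card (hA.add (ivl_nonempty 0 1)) (c - 2) (by rw [← hDe]; exact hDU)
        rw [← hDe] at h1
        omega
      have hs1 : stab (msum (l - 1) (-D) + (A + -A)) = ⊥ := by
        rw [eq_bot_iff, ← hstab, hSe]
        exact stab_right_le _ _
      have hs2 : stab (A + -A) = ⊥ := by
        rw [eq_bot_iff, ← hs1]
        exact stab_right_le _ _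
      have hAn : (A + -A).Nonempty := hA.add hA.neg
      have k1 := card_msum_add hDne (k - 1) ((msum_nonempty hDne.neg (l - 1)).add hAn)
        (by rw [← hSe]; exact hstab)
      have k2 := card_msum_add hDne.neg (l - 1) hAn hs1
      have k3 := kneser_aperiodic A (-A) hA hA.neg hs2
      rw [← hSe] at k1
      rw [Finset.card_neg] at k2 k3
      have hSn : S.card + 1 ≤ n := by
        have h1 : S ⊆ univ.erase 0 := by
          intro x hx
          rw [Finset.mem_erase]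
          exact ⟨fun h => h0S (h ▸ hx), mem_univ x⟩
        have h2 := Finset.card_le_card h1
        rw [Finset.card_erase_of_mem (mem_univ _), Finset.card_univ, ZMod.card] at h2
        omega
      have hcard : (k - 1) * (D.card - 1) + ((l - 1) * (D.card - 1) + 2 * A.card) ≤ n := by
        omega
      have hcard' : ((k : ℤ) - 1) * ((A.card : ℤ) + c - 1) +
          (((l : ℤ) - 1) * ((A.card : ℤ) + c - 1) + 2 * (A.card : ℤ)) ≤ n := by
        have h1 : (((k - 1) * (D.card - 1) + ((l - 1) * (D.card - 1) + 2 * A.card) : ℕ) : ℤ) ≤ n := by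
          exact_mod_cast hcard
        have hD1 : 1 ≤ D.card := Finset.card_pos.mpr hDne
        push_cast [Nat.cast_sub hD1, Nat.cast_sub (by omega : 1 ≤ k), Nat.cast_sub hl] at h1
        have h2 : ((A.card : ℤ) + c) ≤ D.card := by exact_mod_cast hDc
        have h3 : ((k : ℤ) - 1) * ((A.card : ℤ) + c - 1) ≤ ((k : ℤ) - 1) * ((D.card : ℤ) - 1) :=
          mul_le_mul_of_nonneg_left (by omega) (by omega)
        have h4 : ((l : ℤ) - 1) * ((A.card : ℤ) + c - 1) ≤ ((l : ℤ) - 1) * ((D.card : ℤ) - 1) :=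
          mul_le_mul_of_nonneg_left (by omega) (by omega)
        linarith
      refine ⟨A.card, le_rfl, ?_⟩
      obtain ⟨P, hP⟩ : ∃ P : ℤ, P = (k : ℤ) * A.card + ((k : ℤ) - 1) * ((c : ℤ) - 2) := ⟨_, rfl⟩
      have hg : (0 : ℤ) < ((Nat.gcd n (k - l) : ℕ) : ℤ) := by exact_mod_cast gcd_pos hn
      have hg2 := gcd_le (n := n) hkl
      have hg3 : ((Nat.gcd n (k - l) : ℕ) : ℤ) ≤ (k : ℤ) - l := by omega
      refine ⟨P + (-P) % ((Nat.gcd n (k - l) : ℕ) : ℤ), ?_, ?_, ?_⟩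
      · have := Int.dvd_self_sub_emod (x := -P) (m := ((Nat.gcd n (k - l) : ℕ) : ℤ))
        have h2 := (dvd_neg).mpr this
        have e : -(-P - -P % ((Nat.gcd n (k - l) : ℕ) : ℤ)) =
          P + (-P) % ((Nat.gcd n (k - l) : ℕ) : ℤ) := by ring
        rwa [e] at h2
      · rw [← hP]
        have := Int.emod_nonneg (-P) hg.ne'
        omega
      · have h8 := Int.emod_lt_of_pos (-P) hg
        have h9 : P + ((k : ℤ) - l - 1) ≤ (n : ℤ) - (l : ℤ) * A.card -
            ((l : ℤ) - 1) * ((c : ℤ) - 2) := by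
          rw [hP]
          nlinarith
        omega
  · -- periodic case
    obtain ⟨N, h, rfl, hNn, hNH⟩ := exists_divisor (stab S) hstab
    have hN : 0 < N := Nat.pos_of_ne_zero (fun h0 => by rw [h0, zero_mul] at hn; omega)
    have hh : 0 < h := Nat.pos_of_ne_zero (fun h0 => by rw [h0, mul_zero] at hn; omega)
    obtain ⟨f, hf⟩ : ∃ f : ZMod (N * h) →+* ZMod N, f = ZMod.castHom (Dvd.intro h rfl) (ZMod N) :=
      ⟨_, rfl⟩
    have hfree' : NoisyFree N k l c (A.image f) := by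
      unfold NoisyFree
      rw [← image_noisySum, ← image_noisySum, Finset.disjoint_left]
      intro z hz1 hz2
      rw [mem_image] at hz1 hz2
      obtain ⟨x, hx, rfl⟩ := hz1
      obtain ⟨y, hy, hxy⟩ := hz2
      rw [← hX] at hx
      rw [← hY] at hy
      have h1 : f (y - x) = 0 := by rw [map_sub, hxy, sub_self]
      have h2 : y - x ∈ stab S := mem_of_cast_zero f (stab S) hNH _ h1
      have h3 : x - y ∈ S := by
        rw [hS, sub_eq_add_neg]
        exact Finset.add_mem_add hx (Finset.neg_mem_neg hy)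
      have h4 := stab_add h2 h3
      rw [sub_add_sub_cancel, sub_self] at h4
      exact h0S h4
    obtain ⟨t, ht, hcrit⟩ := ih N hNn hN (A.image f) (hA.image f) hfree'
    refine ⟨h * t, ?_, crit_lift hh hl hkl hc hcrit⟩
    exact (card_le_image f A).trans (Nat.mul_le_mul_left _ ht)

/-- For all `n ≥ 1`, `k > l ≥ 1` and `c ≥ 2`, `μ^{{0,…,c-1}}_{k,l}(ℤ/nℤ) = max {0, L}`. -/
theorem result (n k l c : ℕ) (hn : 1 ≤ n) (hl : 1 ≤ l) (hkl : l < k) (hc : 2 ≤ c) :
    (mu n k l c : ℤ) = max 0 (bigL n k l c) := by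
  have : NeZero n := ⟨by omega⟩
  have hbdd : BddAbove {N : ℕ | ∃ A : Finset (ZMod n), A.card = N ∧ NoisyFree n k l c A} := by
    refine ⟨Fintype.card (ZMod n), ?_⟩
    rintro N ⟨A, rfl, -⟩
    exact Finset.card_le_univ A
  have hmsum_empty : ∀ m, 1 ≤ m → msum m (∅ : Finset (ZMod n)) = ∅ := by
    intro m hm
    obtain ⟨j, rfl⟩ : ∃ j, m = j + 1 := ⟨m - 1, by omega⟩
    rw [msum_succ, Finset.add_empty]
  have hempty : NoisyFree n k l c (∅ : Finset (ZMod n)) := by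
    unfold NoisyFree noisySum
    rw [hmsum_empty k (by omega), Finset.empty_add]
    exact Finset.disjoint_empty_left _
  apply le_antisymm
  · obtain ⟨A, hAc, hA⟩ := Nat.sSup_mem
      (s := {N : ℕ | ∃ A : Finset (ZMod n), A.card = N ∧ NoisyFree n k l c A})
      ⟨0, ∅, rfl, hempty⟩ hbdd
    have hmu : mu n k l c = A.card := hAc.symm
    rcases A.eq_empty_or_nonempty with h0 | hne
    · rw [hmu, h0]
      simp
    · obtain ⟨t, ht, hcrit⟩ := exists_crit k l c hl hkl hc n (by omega) A hne hA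
      have h1 := crit_le (by omega) hl hkl hcrit
      have h2 : (A.card : ℤ) ≤ t := by exact_mod_cast ht
      rw [hmu]
      exact le_max_of_le_right (h2.trans h1)
  · apply max_le (by positivity)
    rcases le_or_gt (bigL n k l c) 0 with h0 | h0
    · exact h0.trans (by positivity)
    · have hcrit := crit_of_L (c := c) (by omega : 0 < n) hl hkl h0
      obtain ⟨A, hA, hfree⟩ := free_interval (by omega) hl hkl hc (by omega) hcrit
      have h1 : A.card ≤ mu n k l c := le_csSup hbdd ⟨A, rfl, hfree⟩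
      rw [hA] at h1
      omega

end Pool.Agent.Results.MP_4e78b4_co.ExactValue
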